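import Pool.Agent.H211.AD.Stm5
import Pool.Agent.H44.AD211.MEAS

/-! Task SHRINK of project AD (helper211), by helper286: backward shrinking. -/

set_option autoImplicit false

open Metric Set MeasureTheory Filter Topology

namespace Pool.Agent.H286.AD211.SHRINK

open Pool.Agent.H211.AD
open Pool.Agent.H44.AD211 (iter_diff br_inj br_univ br_deriv)
open Pool.Agent.W746.LD (Univ KC exists_KC)

/-- the image of a smaller ball under a branch is open -/
theorem br_open {f : ℂ → ℂ} {U : Set ℂ} (hU : IsOpen U) (hf : DifferentiableOn ℂ f U) {n : ℕ}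
    {y : ℂ} {R : ℝ} {g : ℂ → ℂ} (hg : IsBr f U n y R g) {R' : ℝ} (hR' : R' ≤ R) :
    IsOpen (g '' ball y R') := by
  obtain ⟨C0, c0, K⟩ := exists_KC
  rw [Metric.isOpen_iff]
  rintro _ ⟨x, hx, rfl⟩
  have hx' : x ∈ ball y R := ball_subset_ball hR' hx
  have hxR : dist x y < R' := hx
  set r : ℝ := R' - dist x y with hr
  have hr0 : 0 < r := by linarith
  have hsub : ball x r ⊆ ball y R' := ball_subset_ball' (by rw [hr]; linarith)
  have hd : 0 < ‖deriv g x‖ := by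
    refine norm_pos_iff.2 fun h0 => ?_
    have h1 := br_deriv hU hf hg hx'
    rw [h0, mul_zero] at h1
    exact zero_ne_one h1
  have hc0 := K.pos
  refine ⟨c0 * r * ‖deriv g x‖, by positivity, fun a ha => ?_⟩
  by_contra hcon
  have h1 := K.komit g x r hr0 ((br_univ hg).mono (hsub.trans (ball_subset_ball hR'))) a
    (fun w hw hwa => hcon ⟨w, hsub hw, hwa⟩)
  rw [mem_ball, dist_comm, dist_eq_norm] at ha
  exact absurd ha (not_lt.2 h1)

/-- points of a connected set are recovered by the branch -/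
theorem conn_br {f : ℂ → ℂ} {U : Set ℂ} (hU : IsOpen U) (hf : DifferentiableOn ℂ f U) {m : ℕ}
    {w : ℂ} {R : ℝ} {g : ℂ → ℂ} (hg : IsBr f U m w R g) (hR : 0 < R) {z : ℂ} (hgz : g w = z)
    {V : Set ℂ} (hV : IsPreconnected V) (hzV : z ∈ V)
    (hVb : ∀ v ∈ V, ‖f^[m] v - w‖ ≤ R / 4) : ∀ v ∈ V, g (f^[m] v) = v := by
  have hsub : V ⊆ g '' ball w (R / 2) := by
    refine hV.subset_of_closure_inter_subset (br_open hU hf hg (by linarith))
      ⟨z, hzV, w, mem_ball_self (by linarith), hgz⟩ ?_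
    rintro v ⟨hv1, hv2⟩
    have hcomp : IsCompact (g '' closedBall w (R / 2)) :=
      (isCompact_closedBall _ _).image_of_continuousOn
        (hg.1.continuousOn.mono (closedBall_subset_ball (by linarith)))
    have h1 : closure (g '' ball w (R / 2)) ⊆ g '' closedBall w (R / 2) :=
      closure_minimal (image_mono ball_subset_closedBall) hcomp.isClosed
    obtain ⟨x, hx, hxv⟩ := h1 hv1
    have hxb : x ∈ ball w R := closedBall_subset_ball (by linarith) hx
    have h2 : f^[m] v = x := by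
      rw [← hxv]
      exact (hg.2 x hxb).2
    refine ⟨x, ?_, hxv⟩
    have h3 := hVb v hv2
    rw [h2] at h3
    rw [mem_ball, dist_eq_norm]
    linarith
  intro v hv
  obtain ⟨x, hx, hxv⟩ := hsub hv
  have h1 : f^[m] v = x := by
    rw [← hxv]
    exact (hg.2 x (ball_subset_ball (by linarith) hx)).2
  rw [h1, hxv]

/-- the connected set is small if there is a branch -/
theorem br_small {C0 c0 : ℝ} (K : KC C0 c0) {f : ℂ → ℂ} {U : Set ℂ} (hU : IsOpen U)
    (hf : DifferentiableOn ℂ f U) {m : ℕ}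
    {w : ℂ} {R : ℝ} {g : ℂ → ℂ} (hg : IsBr f U m w R g) (hR : 0 < R) {z : ℂ} (hgz : g w = z)
    {V : Set ℂ} (hV : IsPreconnected V) (hzV : z ∈ V)
    (hVb : ∀ v ∈ V, ‖f^[m] v - w‖ ≤ R / 4) {η : ℝ} (hη : 0 < η)
    (hd : ‖deriv g w‖ * R ≤ η / C0) : V ⊆ ball z η := by
  intro v hv
  have h1 := conn_br hU hf hg hR hgz hV hzV hVb v hv
  have hC0 : 0 < C0 := lt_of_lt_of_le one_pos K.one_le
  have h2 := K.lip hR (br_univ hg) (hVb v hv)
  rw [h1, hgz] at h2
  rw [mem_ball, dist_eq_norm]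
  rw [le_div_iff₀ hC0] at hd
  calc ‖v - z‖ ≤ C0 * ‖deriv g w‖ * ‖f^[m] v - w‖ := h2
    _ ≤ C0 * ‖deriv g w‖ * (R / 4) := by
        have := hVb v hv
        gcongr
    _ = (‖deriv g w‖ * R * C0) / 4 := by ring
    _ ≤ η / 4 := by linarith
    _ < η := by linarith

theorem root_ex {X : ℝ} (hX : 0 < X) {l : ℕ} (hl : l ≠ 0) : ∃ r : ℝ, 0 < r ∧ r ^ l = X :=
  ⟨X ^ ((l : ℝ)⁻¹), Real.rpow_pos_of_pos hX _, Real.rpow_inv_natCast_pow hX.le hl⟩

/-- a uniform positive lower bound over a finite set -/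
theorem fin_min {ι : Type} (s : Finset ι) (F : ι → ℝ) (h : ∀ c ∈ s, 0 < F c) :
    ∃ m > 0, ∀ c ∈ s, m ≤ F c := by
  classical
  induction s using Finset.induction_on with
  | empty => exact ⟨1, one_pos, by simp⟩
  | insert a s _ ih =>
    obtain ⟨m, hm, hms⟩ := ih fun c hc => h c (Finset.mem_insert_of_mem hc)
    refine ⟨min m (F a), lt_min hm (h a (Finset.mem_insert_self a s)), fun c hc => ?_⟩
    rcases Finset.mem_insert.1 hc with rfl | hc
    · exact min_le_right _ _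
    · exact (min_le_left _ _).trans (hms c hc)

section sys

variable {f : ℂ → ℂ} {U K : Set ℂ} {Cr : Finset ℂ} {ℓ : ℂ → ℕ} {δ₀ Cp rp c₀ μ : ℝ}

theorem KU (hS : Sys f U K Cr ℓ δ₀ Cp rp c₀ μ) : K ⊆ U :=
  (self_subset_cthickening K).trans hS.thick

theorem iterK (hS : Sys f U K Cr ℓ δ₀ Cp rp c₀ μ) (n : ℕ) {z : ℂ} (hz : z ∈ K) : f^[n] z ∈ K := by
  induction n with
  | zero => exact hz
  | succ n ih =>
    rw [Function.iterate_succ_apply']
    exact hS.fwd _ ih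

theorem chain (hS : Sys f U K Cr ℓ δ₀ Cp rp c₀ μ) (j : ℕ) {x : ℂ} (hx : x ∈ K) :
    deriv f^[j + 1] x = deriv f (f^[j] x) * deriv f^[j] x := by
  have h1 : DifferentiableAt ℂ f (f^[j] x) :=
    hS.diff.differentiableAt (hS.openU.mem_nhds (KU hS (iterK hS j hx)))
  have h2 : DifferentiableAt ℂ f^[j] x :=
    iter_diff hS.openU hS.diff j fun i _ => KU hS (iterK hS i hx)
  rw [Function.iterate_succ']
  exact deriv_comp x h1 h2

theorem crit_zero (hS : Sys f U K Cr ℓ δ₀ Cp rp c₀ μ) {c : ℂ} (hc : c ∈ Cr) : deriv f c = 0 := by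
  have h1 := (hS.loc c hc c (by rw [sub_self, norm_zero]; exact hS.rp_pos.le)).2.2.2.1
  have h2 := hS.deg c hc
  rw [sub_self, norm_zero, zero_pow (by omega), mul_zero] at h1
  exact norm_le_zero_iff.1 h1

theorem dist_pos (hS : Sys f U K Cr ℓ δ₀ Cp rp c₀ μ) (j : ℕ) {c c' : ℂ} (hc : c ∈ Cr)
    (hc' : c' ∈ Cr) : 0 < ‖f^[j] (f c') - c‖ := by
  refine norm_pos_iff.2 fun h0 => ?_
  have h1 := hS.ce c' hc' (j + 1)
  rw [chain hS j (hS.fwd _ (hS.critK c' hc')), sub_eq_zero.1 h0, crit_zero hS hc, zero_mul,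
    norm_zero] at h1
  have h2 : 0 < c₀ * μ ^ (j + 1) := mul_pos hS.c₀_pos (pow_pos (by linarith [hS.μ_gt]) _)
  linarith

theorem dist_bd (hS : Sys f U K Cr ℓ δ₀ Cp rp c₀ μ) (M : ℕ) :
    ∃ d > 0, ∀ j < M, ∀ c ∈ Cr, ∀ c' ∈ Cr, d ≤ ‖f^[j] (f c') - c‖ := by
  obtain ⟨m, hm, h⟩ := fin_min (Finset.range M ×ˢ (Cr ×ˢ Cr))
    (fun p => ‖f^[p.1] (f p.2.2) - p.2.1‖) (by
      rintro ⟨j, c, c'⟩ hp
      simp only [Finset.mem_product, Finset.mem_range] at hp
      exact dist_pos hS j hp.2.1 hp.2.2)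
  refine ⟨m, hm, fun j hj c hc c' hc' => ?_⟩
  exact h (j, c, c') (by simp only [Finset.mem_product, Finset.mem_range]; exact ⟨hj, hc, hc'⟩)

end sys

theorem t_SHRINK (hHIT : S_HITV) (hUNI : S_UNI) : S_SHRINK := by
  intro f U K Cr ℓ δ₀ Cp rp c₀ μ hS
  obtain ⟨C0, k0, KK⟩ := exists_KC
  have hC0 : 0 < C0 := lt_of_lt_of_le one_pos KK.one_le
  have hμ := hS.μ_gt
  have hc₀ := hS.c₀_pos
  have hrp := hS.rp_pos
  have hδ₀ := hS.δ₀_pos
  have hCp : 0 < Cp := lt_of_lt_of_le one_pos hS.Cp_ge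
  -- the exponential rates
  obtain ⟨s, hs0, hs4⟩ := root_ex (show (0 : ℝ) < μ by linarith) (show (4 : ℕ) ≠ 0 by norm_num)
  have hs1 : 1 < s := by
    by_contra hcon
    have : s ^ 4 ≤ 1 := pow_le_one₀ hs0.le (not_lt.1 hcon)
    linarith
  set q : ℝ := s⁻¹ with hq
  have hq0 : 0 < q := inv_pos.2 hs0
  have hq1 : q < 1 := inv_lt_one_of_one_lt₀ hs1
  have hθ1 : 1 < s ^ 2 := one_lt_pow₀ hs1 (by norm_num)
  have hθμ : s ^ 2 < μ := by
    rw [← hs4]
    exact pow_lt_pow_right₀ hs1 (by norm_num)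
  have hqq : ∀ j : ℕ, (s ^ 2) ^ j / μ ^ j = q ^ (2 * j) := by
    intro j
    rw [← div_pow, ← hs4, hq, pow_mul]
    congr 1
    field_simp
  obtain ⟨C₁, hC₁, hHIT⟩ := hHIT f U K Cr ℓ δ₀ Cp rp c₀ μ hS (s ^ 2) hθ1 hθμ
  obtain ⟨R₁, hR₁, hHIT⟩ := hHIT rp hrp
  set L : ℕ := Cr.sup ℓ with hL
  have hℓL : ∀ c ∈ Cr, ℓ c ≤ L := fun c hc => Finset.le_sup hc
  set C' : ℝ := C₁ * Cp ^ 2 * 3 ^ L / c₀ with hC'
  have hC'0 : 0 < C' := by positivity
  set C₅ : ℝ := 8 ^ L * (4 * Cp * C₁ / c₀) / q with hC₅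
  have hC₅0 : 0 < C₅ := by positivity
  obtain ⟨M, hM⟩ := exists_pow_lt_of_lt_one (show 0 < q / (8 ^ L * C') by positivity) hq1
  obtain ⟨d, hd0, hd⟩ := dist_bd hS M
  set b : ℝ := min (min 1 R₁) (min (d / 4) (min (rp / 3) δ₀)) with hb
  have hb0 : 0 < b := by positivity
  have hb1 : b ≤ 1 := (min_le_left _ _).trans (min_le_left _ _)
  have hbR : b ≤ R₁ := (min_le_left _ _).trans (min_le_right _ _)
  have hbd : b ≤ d / 4 := (min_le_right _ _).trans (min_le_left _ _)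
  have hbrp : b ≤ rp / 3 := ((min_le_right _ _).trans (min_le_right _ _)).trans (min_le_left _ _)
  have hbδ : b ≤ δ₀ := ((min_le_right _ _).trans (min_le_right _ _)).trans (min_le_right _ _)
  set ϱ : ℝ := min (b / 4) (b ^ L / C₅) with hϱ
  have hϱ0 : 0 < ϱ := by positivity
  have hϱb : 4 * ϱ ≤ b := by
    have : ϱ ≤ b / 4 := min_le_left _ _
    linarith
  have hϱL : C₅ * ϱ ≤ b ^ L := by
    have h1 : ϱ ≤ b ^ L / C₅ := min_le_right _ _
    rw [le_div_iff₀ hC₅0] at h1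
    linarith
  refine ⟨ϱ, hϱ0, fun η hη => ?_⟩
  obtain ⟨ε, hε, T, hUN⟩ := hUNI f U K Cr ℓ δ₀ Cp rp c₀ μ hS (η / C0) (by positivity)
  set ε' : ℝ := min ε 1 with hε'
  have hε'0 : 0 < ε' := by positivity
  have hε'1 : ε' ≤ 1 := min_le_right _ _
  obtain ⟨k, hk⟩ := exists_pow_lt_of_lt_one (show 0 < ε' ^ L / (C₅ * ϱ) by positivity) hq1
  refine ⟨T + k, fun n hn z hz V hV => ?_⟩
  obtain ⟨hVp, hzV, hVU, hVn⟩ := hV
  have hzK : z ∈ K := hS.cpt.isClosed.frontier_subset hz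
  have hball : ∀ v ∈ V, ‖f^[n] v - f^[n] z‖ < ϱ := by
    intro v hv
    have := hVn hv
    rwa [mem_ball, dist_eq_norm] at this
  -- the main induction
  have key : ∀ m : ℕ, m ≤ n → ∀ c ∈ Cr, ∀ R : ℝ, 0 < R → (∀ v ∈ V, ‖f^[m] v - c‖ ≤ R / 8) →
      R ^ ℓ c ≤ C₅ * q ^ (n - m) * ϱ → V ⊆ ball z η := by
    intro m
    induction m using Nat.strong_induction_on with
    | _ m ih =>
    intro hmn c hc R hR hVc hRl
    have hℓ2 := hS.deg c hc
    have hRb : R ≤ b := by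
      refine le_of_pow_le_pow_left₀ (show ℓ c ≠ 0 by omega) hb0.le ?_
      have h1 : q ^ (n - m) ≤ 1 := pow_le_one₀ hq0.le hq1.le
      calc R ^ ℓ c ≤ C₅ * q ^ (n - m) * ϱ := hRl
        _ ≤ C₅ * 1 * ϱ := by gcongr
        _ = C₅ * ϱ := by ring
        _ ≤ b ^ L := hϱL
        _ ≤ b ^ ℓ c := pow_le_pow_of_le_one hb0.le hb1 (hℓL c hc)
    have hVw : ∀ v ∈ V, ‖f^[m] v - f^[m] z‖ ≤ R / 4 := by
      intro v hv
      calc ‖f^[m] v - f^[m] z‖ = ‖(f^[m] v - c) - (f^[m] z - c)‖ := by congr 1; ring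
        _ ≤ ‖f^[m] v - c‖ + ‖f^[m] z - c‖ := norm_sub_le _ _
        _ ≤ R / 8 + R / 8 := add_le_add (hVc v hv) (hVc z hzV)
        _ = R / 4 := by ring
    rcases hHIT m z R hR (hRb.trans hbR) (fun i _ => KU hS (iterK hS i hzK))
      (self_subset_cthickening K (iterK hS m hzK)) with ⟨g, hg, hgz⟩ | ⟨j, hjm, c', hc', hj, hH⟩
    · refine br_small KK hS.openU hS.diff hg hR hgz hVp hzV hVw hη ?_
      refine hUN z hz m R g hR (hRb.trans hbδ) hg hgz ?_
      by_cases hT : T ≤ m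
      · exact Or.inl hT
      · right
        refine le_trans ?_ (min_le_left ε 1)
        refine le_of_pow_le_pow_left₀ (show ℓ c ≠ 0 by omega) hε'0.le ?_
        have h1 : q ^ (n - m) ≤ q ^ k := pow_le_pow_of_le_one hq0.le hq1.le (by omega)
        rw [lt_div_iff₀ (by positivity)] at hk
        calc R ^ ℓ c ≤ C₅ * q ^ (n - m) * ϱ := hRl
          _ ≤ C₅ * q ^ k * ϱ := by gcongr
          _ = q ^ k * (C₅ * ϱ) := by ring
          _ ≤ ε' ^ L := hk.le
          _ ≤ ε' ^ ℓ c := pow_le_pow_of_le_one hε'0.le hε'1 (hℓL c hc)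
    · have hℓ2' := hS.deg c' hc'
      have hu : ‖f^[j] (f c') - c‖ ≤ 3 * R := by
        have h1 := hVc z hzV
        calc ‖f^[j] (f c') - c‖ = ‖(f^[j] (f c') - f^[m] z) + (f^[m] z - c)‖ := by congr 1; ring
          _ ≤ ‖f^[j] (f c') - f^[m] z‖ + ‖f^[m] z - c‖ := norm_add_le _ _
          _ ≤ 2 * R + R / 8 := add_le_add hj.le h1
          _ ≤ 3 * R := by linarith
      have hjM : M ≤ j := by
        by_contra hcon
        have h1 := hd j (not_le.1 hcon) c hc c' hc'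
        linarith
      -- the derivative
      have hce := hS.ce c' hc' (j + 1)
      rw [chain hS j (hS.fwd _ (hS.critK c' hc')), norm_mul] at hce
      have hder := (hS.loc c hc (f^[j] (f c')) (by linarith)).2.2.2.1
      have hD0 : 0 < ‖deriv f^[j] (f c')‖ :=
        lt_of_lt_of_le (by positivity) (hS.ce c' hc' j)
      set D : ℝ := ‖deriv f^[j] (f c')‖ with hD
      have hμ0 : 0 < μ := by linarith
      have h3 : c₀ * μ ^ (j + 1) ≤ Cp * (3 * R) ^ (ℓ c - 1) * D := by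
        refine hce.trans ?_
        gcongr
        refine hder.trans ?_
        gcongr
      have hX : Cp * (C₁ * (s ^ 2) ^ j * R / D) ≤ C' * q ^ (2 * j) * R ^ ℓ c := by
        have h4 : (3 : ℝ) ^ (ℓ c - 1) ≤ 3 ^ L :=
          pow_le_pow_right₀ (by norm_num) (by have := hℓL c hc; omega)
        have h5 : R ^ ℓ c = R ^ (ℓ c - 1) * R := by
          rw [← pow_succ]
          congr 1
          omega
        have h6 : c₀ * μ ^ j ≤ Cp * (3 * R) ^ (ℓ c - 1) * D := by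
          refine le_trans ?_ h3
          have : μ ^ j ≤ μ ^ (j + 1) := pow_le_pow_right₀ hμ.le (by omega)
          gcongr
        rw [← hqq j, h5, hC']
        rw [show Cp * (C₁ * (s ^ 2) ^ j * R / D) = (Cp * C₁ * (s ^ 2) ^ j * R) / D by ring,
          show C₁ * Cp ^ 2 * 3 ^ L / c₀ * ((s ^ 2) ^ j / μ ^ j) * (R ^ (ℓ c - 1) * R) =
            (Cp * C₁ * (s ^ 2) ^ j * R) * (Cp * 3 ^ L * R ^ (ℓ c - 1)) / (c₀ * μ ^ j) by
              field_simp]
        rw [div_le_div_iff₀ hD0 (by positivity)]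
        have h7 : c₀ * μ ^ j ≤ Cp * 3 ^ L * R ^ (ℓ c - 1) * D := by
          refine h6.trans ?_
          rw [mul_pow, ← mul_assoc]
          gcongr
        calc Cp * C₁ * (s ^ 2) ^ j * R * (c₀ * μ ^ j)
            ≤ Cp * C₁ * (s ^ 2) ^ j * R * (Cp * 3 ^ L * R ^ (ℓ c - 1) * D) := by gcongr
          _ = _ := by ring
      obtain ⟨r, hr0, hrl⟩ := root_ex (show 0 < C' * q ^ (2 * j) * R ^ ℓ c by positivity)
        (show ℓ c' ≠ 0 by omega)
      have hconn : Conn f U m z R V := by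
        refine ⟨hVp, hzV, fun i hi => hVU i (by omega), fun v hv => ?_⟩
        rw [mem_ball, dist_eq_norm]
        have := hVw v hv
        linarith
      refine ih (m - (j + 1)) (by omega) (by omega) c' hc' (8 * r) (by positivity) ?_ ?_
      · intro v hv
        obtain ⟨h8, h9⟩ := hH V hconn v hv
        have h10 := (hS.loc c' hc' (f^[m - (j + 1)] v) h8.le).2.2.1
        rw [← Function.iterate_succ_apply' f, Nat.succ_eq_add_one,
          show m - (j + 1) + 1 = m - j by omega] at h10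
        rw [show 8 * r / 8 = r by ring]
        refine le_of_pow_le_pow_left₀ (show ℓ c' ≠ 0 by omega) hr0.le ?_
        rw [hrl]
        refine h10.trans (le_trans ?_ hX)
        gcongr
      · rw [mul_pow, hrl]
        have h11 : (8 : ℝ) ^ ℓ c' ≤ 8 ^ L := pow_le_pow_right₀ (by norm_num) (hℓL c' hc')
        have h12 : 8 ^ L * C' * q ^ (2 * j) ≤ q ^ (j + 1) := by
          rw [lt_div_iff₀ (by positivity)] at hM
          have h13 : q ^ j ≤ q ^ M := pow_le_pow_of_le_one hq0.le hq1.le hjM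
          calc 8 ^ L * C' * q ^ (2 * j) = (q ^ j * (8 ^ L * C')) * q ^ j := by
                rw [two_mul, pow_add]; ring
            _ ≤ (q ^ M * (8 ^ L * C')) * q ^ j := by gcongr
            _ ≤ q * q ^ j := by gcongr
            _ = q ^ (j + 1) := by rw [pow_succ]; ring
        have h14 : n - (m - (j + 1)) = (n - m) + (j + 1) := by omega
        rw [h14, pow_add]
        calc 8 ^ ℓ c' * (C' * q ^ (2 * j) * R ^ ℓ c) ≤ 8 ^ L * (C' * q ^ (2 * j) * R ^ ℓ c) := by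
              gcongr
          _ = (8 ^ L * C' * q ^ (2 * j)) * R ^ ℓ c := by ring
          _ ≤ q ^ (j + 1) * (C₅ * q ^ (n - m) * ϱ) := by gcongr
          _ = _ := by ring
  -- the first step
  have hVw : ∀ v ∈ V, ‖f^[n] v - f^[n] z‖ ≤ 4 * ϱ / 4 := by
    intro v hv
    have := hball v hv
    linarith
  rcases hHIT n z (4 * ϱ) (by positivity) (hϱb.trans hbR) (fun i _ => KU hS (iterK hS i hzK))
      (self_subset_cthickening K (iterK hS n hzK)) with ⟨g, hg, hgz⟩ | ⟨j, hjn, c', hc', hj, hH⟩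
  · refine br_small KK hS.openU hS.diff hg (by positivity) hgz hVp hzV hVw hη ?_
    exact hUN z hz n (4 * ϱ) g (by positivity) (hϱb.trans hbδ) hg hgz (Or.inl (by omega))
  · have hℓ2' := hS.deg c' hc'
    have hce := hS.ce c' hc' j
    have hμ0 : 0 < μ := by linarith
    have hD0 : 0 < ‖deriv f^[j] (f c')‖ := lt_of_lt_of_le (by positivity) hce
    set D : ℝ := ‖deriv f^[j] (f c')‖ with hD
    have hX : Cp * (C₁ * (s ^ 2) ^ j * (4 * ϱ) / D) ≤ 4 * Cp * C₁ / c₀ * q ^ (2 * j) * ϱ := by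
      rw [← hqq j]
      rw [show Cp * (C₁ * (s ^ 2) ^ j * (4 * ϱ) / D) = (4 * Cp * C₁ * (s ^ 2) ^ j * ϱ) / D by ring,
        show 4 * Cp * C₁ / c₀ * ((s ^ 2) ^ j / μ ^ j) * ϱ =
          (4 * Cp * C₁ * (s ^ 2) ^ j * ϱ) / (c₀ * μ ^ j) by field_simp]
      gcongr
    obtain ⟨r, hr0, hrl⟩ := root_ex (show 0 < 4 * Cp * C₁ / c₀ * q ^ (2 * j) * ϱ by positivity)
        (show ℓ c' ≠ 0 by omega)
    have hconn : Conn f U n z (4 * ϱ) V := by
      refine ⟨hVp, hzV, hVU, fun v hv => ?_⟩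
      rw [mem_ball, dist_eq_norm]
      have := hball v hv
      linarith
    refine key (n - (j + 1)) (by omega) c' hc' (8 * r) (by positivity) ?_ ?_
    · intro v hv
      obtain ⟨h8, h9⟩ := hH V hconn v hv
      have h10 := (hS.loc c' hc' (f^[n - (j + 1)] v) h8.le).2.2.1
      rw [← Function.iterate_succ_apply' f, Nat.succ_eq_add_one,
        show n - (j + 1) + 1 = n - j by omega] at h10
      rw [show 8 * r / 8 = r by ring]
      refine le_of_pow_le_pow_left₀ (show ℓ c' ≠ 0 by omega) hr0.le ?_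
      rw [hrl]
      refine h10.trans (le_trans ?_ hX)
      gcongr
    · rw [mul_pow, hrl]
      have h11 : (8 : ℝ) ^ ℓ c' ≤ 8 ^ L := pow_le_pow_right₀ (by norm_num) (hℓL c' hc')
      have h12 : q ^ (2 * j) ≤ q ^ j := pow_le_pow_of_le_one hq0.le hq1.le (by omega)
      have h14 : n - (n - (j + 1)) = j + 1 := by omega
      rw [h14, hC₅]
      calc 8 ^ ℓ c' * (4 * Cp * C₁ / c₀ * q ^ (2 * j) * ϱ)
          ≤ 8 ^ L * (4 * Cp * C₁ / c₀ * q ^ j * ϱ) := by gcongr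
        _ = 8 ^ L * (4 * Cp * C₁ / c₀) / q * q ^ (j + 1) * ϱ := by
            rw [pow_succ]
            field_simp

end Pool.Agent.H286.AD211.SHRINK
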